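import Pool.Agent.Helper11.PC.Defs

/-! Packet CHAIN of project PC (MP_1f931d_al): the chain lemma for groups acting on trees. -/

namespace Pool.Agent.Helper58.PC

universe u v w

open Pool.Agent.Helper11.PC

section dist

variable {V : Type w} {T : SimpleGraph V} {H : Type u} [Group H] [MulAction H V]

theorem dist_smul_le (hT : T.IsTree)
    (hact : ∀ (g : H) (v w : V), T.Adj v w → T.Adj (g • v) (g • w)) (g : H) (v w : V) :
    T.dist (g • v) (g • w) ≤ T.dist v w := by
  obtain ⟨p, hp⟩ := hT.connected.exists_walk_length_eq_dist v w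
  let f : T →g T := ⟨fun v => g • v, fun {a b} h => hact g a b h⟩
  have h := SimpleGraph.dist_le (p.map f)
  rw [SimpleGraph.Walk.length_map, hp] at h
  exact h

theorem dist_smul (hT : T.IsTree)
    (hact : ∀ (g : H) (v w : V), T.Adj v w → T.Adj (g • v) (g • w)) (g : H) (v w : V) :
    T.dist (g • v) (g • w) = T.dist v w := by
  refine le_antisymm (dist_smul_le hT hact g v w) ?_
  have h := dist_smul_le hT hact g⁻¹ (g • v) (g • w)
  rwa [inv_smul_smul, inv_smul_smul] at h

/-- translates of convex sets are convex -/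
theorem gconvex_smul (hT : T.IsTree)
    (hact : ∀ (g : H) (v w : V), T.Adj v w → T.Adj (g • v) (g • w)) {S : Set V}
    (hS : GConvex T S) (g : H) : GConvex T {x | g⁻¹ • x ∈ S} := by
  intro a ha b hb c hc
  refine hS _ ha _ hb _ ?_
  rw [dist_smul hT hact, dist_smul hT hact, dist_smul hT hact]
  exact hc

end dist

/-- If the projection of `o` to `A` is not farther than the projection to `B` and `A`, `B` meet
then the projection to `B` is in `A`. -/
theorem proj_mem {V : Type w} {T : SimpleGraph V} (hB : TreeBtw T) {A B : Set V}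
    (hA : GConvex T A) {o p q x : V} (hp : p ∈ A)
    (hpA : ∀ y ∈ A, T.dist o y = T.dist o p + T.dist p y)
    (hqB : ∀ y ∈ B, T.dist o y = T.dist o q + T.dist q y) (hxA : x ∈ A) (hxB : x ∈ B)
    (h : T.dist o p ≤ T.dist o q) : q ∈ A := by
  refine hA p hp x hxA q ?_
  exact (hB o x p q (hpA x hxA) (hqB x hxB) h).symm

theorem chain {V : Type w} {T : SimpleGraph V} (hT : T.IsTree) (hproj : TreeProj T)
    (hbtw : TreeBtw T) {H : Type u} [Group H]
    [MulAction H V] (hact : ∀ (g : H) (v w : V), T.Adj v w → T.Adj (g • v) (g • w))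
    {Q : Type v} [Group Q] : ChainLemma T H Q := by
  intro S hS hSne Sig h1 hmeet hmul σ hσ
  have hσ1 : σ 1 = 1 := by
    obtain ⟨y, hy⟩ := hSne
    have h := hσ 1 h1 1 h1 ⟨y, hy, by rwa [one_smul], by rwa [mul_one, one_smul]⟩
    rw [mul_one] at h
    exact left_eq_mul.1 h
  suffices hmain : ∀ (n : ℕ) (L : List H), L.length = n → (∀ s ∈ L, s ∈ Sig) →
      (∃ y ∈ S, L.prod • y ∈ S) → L.prod ∈ Sig ∧ (L.map σ).prod = σ L.prod from
    fun L hL hy => hmain L.length L rfl hL hy
  intro n
  induction n with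
  | zero =>
    intro L hL _ _
    rw [List.length_eq_zero_iff] at hL
    subst hL
    exact ⟨h1, by simp [hσ1]⟩
  | succ n ih =>
    intro L hL hsig hy
    rcases Nat.eq_zero_or_pos n with hn | hn
    · subst hn
      obtain ⟨s, rfl⟩ := List.length_eq_one_iff.1 hL
      refine ⟨?_, by simp⟩
      rw [List.prod_singleton]
      exact hsig s (List.mem_singleton_self s)
    obtain ⟨y, hyS, hyL⟩ := hy
    -- the translates
    set g : ℕ → H := fun i => (L.take i).prod with hg
    have hg0 : g 0 = 1 := by simp [hg]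
    have hgk : g (n + 1) = L.prod := by
      rw [hg, ← hL]
      simp
    have hgs : ∀ i (hi : i < L.length), g (i + 1) = g i * L[i] := fun i hi =>
      List.prod_take_succ L i hi
    have hconv : ∀ i, GConvex T {x | (g i)⁻¹ • x ∈ S} := fun i => gconvex_smul hT hact hS (g i)
    have hne : ∀ i, ({x | (g i)⁻¹ • x ∈ S} : Set V).Nonempty := fun i =>
      ⟨g i • y, by
        change (g i)⁻¹ • g i • y ∈ S
        rwa [inv_smul_smul]⟩
    set o : V := L.prod • y with ho
    have hp : ∀ i, ∃ p, (g i)⁻¹ • p ∈ S ∧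
        ∀ q, (g i)⁻¹ • q ∈ S → T.dist o q = T.dist o p + T.dist p q := fun i => by
      obtain ⟨p, hp1, hp2⟩ := hproj _ (hconv i) (hne i) o
      exact ⟨p, hp1, hp2⟩
    choose p hp1 hp2 using hp
    have hd0 : T.dist o (p 0) = 0 := by
      have h := hp2 0 o (by rw [hg0, inv_one, one_smul]; exact hyL)
      rw [SimpleGraph.dist_self] at h
      omega
    have hdk : T.dist o (p (n + 1)) = 0 := by
      have h := hp2 (n + 1) o (by rw [hgk, ho, inv_smul_smul]; exact hyS)
      rw [SimpleGraph.dist_self] at h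
      omega
    -- consecutive translates meet
    have hx : ∀ i (hi : i < L.length), ∃ x, (g i)⁻¹ • x ∈ S ∧ (g (i + 1))⁻¹ • x ∈ S := by
      intro i hi
      obtain ⟨z, hz1, hz2⟩ := hmeet L[i] (hsig _ (List.getElem_mem hi))
      refine ⟨g (i + 1) • z, ?_, ?_⟩
      · rw [hgs i hi, mul_smul, inv_smul_smul]
        exact hz2
      · rw [inv_smul_smul]
        exact hz1
    obtain ⟨i, hi, hmax⟩ := Finset.exists_max_image (Finset.Ioo 0 (n + 1))
      (fun i => T.dist o (p i)) ⟨1, Finset.mem_Ioo.2 ⟨one_pos, by omega⟩⟩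
    obtain ⟨hi0, hin⟩ := Finset.mem_Ioo.1 hi
    have hle : ∀ j, j ≤ n + 1 → T.dist o (p j) ≤ T.dist o (p i) := by
      intro j hj
      rcases Nat.eq_zero_or_pos j with h | h
      · rw [h, hd0]; exact Nat.zero_le _
      rcases eq_or_lt_of_le hj with h' | h'
      · rw [h', hdk]; exact Nat.zero_le _
      exact hmax j (Finset.mem_Ioo.2 ⟨h, h'⟩)
    obtain ⟨j, rfl⟩ : ∃ j, i = j + 1 := ⟨i - 1, by omega⟩
    have hj1 : j < L.length := by omega
    have hj2 : j + 1 < L.length := by omega
    have hA : (g j)⁻¹ • p (j + 1) ∈ S := by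
      obtain ⟨x, hx1, hx2⟩ := hx j hj1
      exact proj_mem hbtw (A := {x | (g j)⁻¹ • x ∈ S}) (B := {x | (g (j + 1))⁻¹ • x ∈ S})
        (hconv j) (hp1 j) (hp2 j) (hp2 (j + 1)) hx1 hx2 (hle j (by omega))
    have hC : (g (j + 1 + 1))⁻¹ • p (j + 1) ∈ S := by
      obtain ⟨x, hx1, hx2⟩ := hx (j + 1) hj2
      exact proj_mem hbtw (A := {x | (g (j + 1 + 1))⁻¹ • x ∈ S})
        (B := {x | (g (j + 1))⁻¹ • x ∈ S})
        (hconv _) (hp1 _) (hp2 _) (hp2 (j + 1)) hx2 hx1 (hle _ (by omega))
    have hBm := hp1 (j + 1)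
    have e1 : L[j + 1] • (g (j + 1 + 1))⁻¹ • p (j + 1) = (g (j + 1))⁻¹ • p (j + 1) := by
      rw [hgs (j + 1) hj2, mul_inv_rev, mul_smul, smul_inv_smul]
    have e2 : (L[j] * L[j + 1]) • (g (j + 1 + 1))⁻¹ • p (j + 1) = (g j)⁻¹ • p (j + 1) := by
      rw [mul_smul, e1, hgs j hj1, mul_inv_rev, mul_smul, smul_inv_smul]
    have hcond : ∃ y ∈ S, L[j + 1] • y ∈ S ∧ (L[j] * L[j + 1]) • y ∈ S :=
      ⟨_, hC, by rw [e1]; exact hBm, by rw [e2]; exact hA⟩
    have hs : L[j] ∈ Sig := hsig _ (List.getElem_mem hj1)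
    have ht : L[j + 1] ∈ Sig := hsig _ (List.getElem_mem hj2)
    have hst := hmul _ hs _ ht hcond
    have hσst := hσ _ hs _ ht hcond
    have hLe : L = L.take j ++ (L[j] :: L[j + 1] :: L.drop (j + 1 + 1)) := by
      rw [← List.drop_eq_getElem_cons hj2, ← List.drop_eq_getElem_cons hj1,
        List.take_append_drop]
    have hprod : (L.take j ++ ((L[j] * L[j + 1]) :: L.drop (j + 1 + 1))).prod = L.prod := by
      conv_rhs => rw [hLe]
      rw [List.prod_append, List.prod_append, List.prod_cons, List.prod_cons, List.prod_cons,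
        mul_assoc]
    have hmapprod : ((L.take j ++ ((L[j] * L[j + 1]) :: L.drop (j + 1 + 1))).map σ).prod =
        (L.map σ).prod := by
      conv_rhs => rw [hLe]
      rw [List.map_append, List.map_append, List.prod_append, List.prod_append, List.map_cons,
        List.map_cons, List.map_cons, List.prod_cons, List.prod_cons, List.prod_cons, hσst,
        mul_assoc]
    have hlen : (L.take j ++ ((L[j] * L[j + 1]) :: L.drop (j + 1 + 1))).length = n := by
      rw [List.length_append, List.length_cons, List.length_take, List.length_drop]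
      omega
    have h := ih _ hlen (fun s hs' => by
      rcases List.mem_append.1 hs' with h | h
      · exact hsig s (List.mem_of_mem_take h)
      rcases List.mem_cons.1 h with h | h
      · rw [h]; exact hst
      · exact hsig s (List.mem_of_mem_drop h)) ⟨y, hyS, by rw [hprod]; exact hyL⟩
    rw [hprod, hmapprod] at h
    exact h

end Pool.Agent.Helper58.PC
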